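import Pool.Agent.Y118.UL.Cor

/-!
# Renaming the variables and changing signs (problem MP_ede373_nt, project GP of helper46, job NQ)
-/

set_option autoImplicit false

open Pool.Agent.Y118.UL

namespace Pool.Agent.V5helper77.GP

section
variable {R : Type*} [CommRing R] {ι ι' : Type*}

/-- the substitution of the variables by variables times constants -/
noncomputable def sg (e : ι' ≃ ι) (c : ι' → R) (i : ι') : MvPolynomial ι R := MvPolynomial.C (c i) * MvPolynomial.X (e i)

/-- the substitution by variables with square roots of one is injective -/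
lemma sg_inj (e : ι' ≃ ι) (c : ι' → R) (hc : ∀ i, c i * c i = 1) (P : MvPolynomial ι' R)
    (h : MvPolynomial.bind₁ (sg e c) P = 0) : P = 0 := by
  have h2 := congrArg (MvPolynomial.bind₁ (sg e.symm (fun i => c (e.symm i)))) h
  rw [map_zero, MvPolynomial.bind₁_bind₁] at h2
  have h3 : (fun i => (MvPolynomial.bind₁ (sg e.symm (fun i => c (e.symm i)))) (sg e c i)) = MvPolynomial.X := by
    funext i
    unfold sg
    have h4 : MvPolynomial.C (c i) * (MvPolynomial.C (c (e.symm (e i))) * (MvPolynomial.X i : MvPolynomial ι' R)) =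
        MvPolynomial.X i := by
      rw [Equiv.symm_apply_apply, ← mul_assoc, ← MvPolynomial.C_mul, hc, MvPolynomial.C_1, one_mul]
    rw [map_mul, MvPolynomial.bind₁_C_right, MvPolynomial.bind₁_X_right, Equiv.symm_apply_apply]
    exact h4
  rw [h3, MvPolynomial.bind₁_X_left] at h2
  exact h2

/-- the degree does not increase -/
lemma sg_deg (e : ι' ≃ ι) (c : ι' → R) (P : MvPolynomial ι' R) :
    (MvPolynomial.bind₁ (sg e c) P).totalDegree ≤ P.totalDegree := by
  rw [show MvPolynomial.bind₁ (sg e c) P = MvPolynomial.aeval (sg e c) P from rfl, MvPolynomial.aeval_def,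
    MvPolynomial.eval₂_eq]
  refine MvPolynomial.totalDegree_finsetSum_le fun s hs => ?_
  refine le_trans ?_ (MvPolynomial.le_totalDegree hs)
  refine (MvPolynomial.totalDegree_mul _ _).trans ?_
  rw [MvPolynomial.algebraMap_eq, MvPolynomial.totalDegree_C, zero_add]
  refine (MvPolynomial.totalDegree_finsetProd _ _).trans ?_
  refine Finset.sum_le_sum fun i _ => ?_
  refine (MvPolynomial.totalDegree_pow _ _).trans ?_
  have h1 : (sg e c i).totalDegree ≤ 1 := by
    unfold sg
    refine (MvPolynomial.totalDegree_mul _ _).trans ?_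
    rw [MvPolynomial.totalDegree_C, zero_add]
    rcases subsingleton_or_nontrivial R with hR | hR
    · have h5 : (MvPolynomial.X (e i) : MvPolynomial ι R) = 0 := Subsingleton.elim _ _
      rw [h5, MvPolynomial.totalDegree_zero]
      omega
    · exact (MvPolynomial.totalDegree_X _).le
  calc s i * (sg e c i).totalDegree ≤ s i * 1 := Nat.mul_le_mul_left _ h1
    _ = s i := mul_one _

/-- algebraic independence is stable under renaming and change of signs -/
lemma ai_equiv {A : Type*} [CommRing A] [Algebra R A] {x : ι → A} {y : ι' → A} (hx : AlgebraicIndependent R x)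
    (e : ι' ≃ ι) (c : ι' → R) (hc : ∀ i, c i * c i = 1) (hy : ∀ i, y i = algebraMap R A (c i) * x (e i)) :
    AlgebraicIndependent R y := by
  rw [algebraicIndependent_iff] at hx ⊢
  intro P hP
  refine sg_inj e c hc P (hx _ ?_)
  rw [MvPolynomial.aeval_bind₁, ← hP]
  congr 1
  refine MvPolynomial.algHom_ext fun i => ?_
  rw [MvPolynomial.aeval_X, MvPolynomial.aeval_X, hy]
  unfold sg
  rw [map_mul, MvPolynomial.aeval_C, MvPolynomial.aeval_X]

end

/-- no relations of bounded degree: stable under renaming and change of signs -/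
lemma norel_equiv {ε ε' : Type} {v : ℕ → ℕ → ε → ℂ} {v' : ℕ → ℕ → ε' → ℂ} (h : NoRel v) (e : ε' ≃ ε) (c : ε' → ℚ)
    (hc : ∀ i, c i * c i = 1) (hv : ∀ t g i, v' t g i = (c i : ℂ) * v t g (e i)) : NoRel v' := by
  intro N δ
  obtain ⟨E, hE⟩ := h N δ
  refine ⟨E, fun H t ht g hg hgH P hP hP0 => ?_⟩
  refine sg_inj (Equiv.prodCongr (Equiv.refl (Fin N)) e) (fun p => c p.2) (fun p => hc p.2) P
    (hE H t ht g hg hgH _ ((sg_deg _ _ _).trans hP) ?_)
  rw [MvPolynomial.aeval_bind₁, ← hP0]
  congr 1
  refine MvPolynomial.algHom_ext fun i => ?_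
  rw [MvPolynomial.aeval_X, MvPolynomial.aeval_X, hv]
  unfold sg
  rw [map_mul, MvPolynomial.aeval_C, MvPolynomial.aeval_X]
  rfl

end Pool.Agent.V5helper77.GP
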