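import Pool.Agent.V5helper46.GP.Stm2
import Pool.Agent.V5helper77.GP.Fam
import Pool.Agent.V5helper77.GP.Tr
import Pool.Agent.Y118.UL.Nor
import Pool.Agent.Y119.J.Fam

/-!
# Project GP (helper46), problem MP_ede373_nt, job NQ: no relations of bounded degree
-/

set_option autoImplicit false

open PowerSeries Pool.Agent.Y113 Pool.Agent.Y120.GF Pool.Agent.Y120.GH Pool.Agent.Y119.HZ Pool.Agent.Y118.UL
open Pool.Agent.Y120.J (FF GG F1 G1 hJ hsd SDc_neg)
open Pool.Agent.V5helper46.GP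

namespace Pool.Agent.V5helper77.GP

/-- the general statement with a nilpotent residue -/
theorem norel_gen {n : ℕ} {H W : Matrix (Fin n) (Fin n) ℚ⟦X⟧} {N : Matrix (Fin n) (Fin n) ℚ} {Nz : Fin n → Fin n → ℤ}
    {T₁ : Polynomial ℤ} {A : Fin n → Fin n → Polynomial ℤ} (hN0 : N ^ n = 0) (hNz : ∀ i j, (Nz i j : ℚ) = N i j)
    (hT : T₁ ≠ 0) (hHW : H * W = 1)
    (h0 : ∀ i j, coeff 0 (H i j) = if i = j then 1 else 0)
    (hode : ∀ i j, ps T₁ * (X * d⁄dX ℚ (H i j) + ∑ k, H i k * C (N k j)) = ∑ k, ps (A i k) * H k j)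
    (hH : ∀ i j, SDc (H i j)) (hW : ∀ i j, SDc (W i j)) {I : Finset (Fin (n * n))}
    (hI : AlgebraicIndependent (Polynomial ℚ) (fun i : I => H (ix n i).1 (ix n i).2)) :
    ∃ G : ℕ, 1 ≤ G ∧ NoRel (fun t g (i : Option I) =>
      vl G (fun a : Fin (n * n) => H (ix n a).1 (ix n a).2) t g (i.map Subtype.val)) := by
  obtain ⟨q, C, hG⟩ := gsysL hN0 hHW hode hH hW
  have hG' := hG.reindex (ix n)
  have hsize : ∃ C : ℝ, ∀ (i : Fin (n * n)) m, |((coeff m (H (ix n i).1 (ix n i).2) : ℚ) : ℝ)| ≤ C ^ (m + 1) := by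
    obtain ⟨C₁, hC₁, hs, -⟩ := Pool.Agent.Y119.HY.SDc.unif (y := fun p : Fin n × Fin n => H p.1 p.2) fun p => hH p.1 p.2
    exact ⟨C₁, fun j m => hs _ m⟩
  have hT' : Polynomial.X * T₁ ≠ 0 := mul_ne_zero Polynomial.X_ne_zero hT
  obtain ⟨R, hR⟩ := famG (h := fun a : Fin (n * n) => H (ix n a).1 (ix n a).2)
    (A := fun a c => A3 T₁ A Nz (ix n a) (ix n c)) hT' (fun i => by
      have h1 := ode_A3 hNz hode (ix n i)
      have h2 : ∑ j : Fin (n * n), ps (A3 T₁ A Nz (ix n i) (ix n j)) * H (ix n j).1 (ix n j).2 =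
          ∑ q, ps (A3 T₁ A Nz (ix n i) q) * H q.1 q.2 :=
        Equiv.sum_comp (ix n) fun q => ps (A3 T₁ A Nz (ix n i) q) * H q.1 q.2
      exact h1.trans h2.symm) hsize hG' (qu_gen hN0 hNz h0 hode hH)
  exact ⟨R + 1, by omega, norel (h := fun a : Fin (n * n) => H (ix n a).1 (ix n a).2) hsize hI hR
    (by omega) (by omega)⟩

/-- the denominator is not zero -/
lemma TM_ne {c d : ℕ} {p : Polynomial ℤ} (hd : 1 ≤ d) (hp : p.coeff 0 ≠ 0) : TM c d p ≠ 0 := by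
  unfold TM
  have h1 : p ≠ 0 := by
    rintro rfl
    exact hp (by simp)
  refine mul_ne_zero h1 (pow_ne_zero 2 ?_)
  intro h2
  have h3 := congrArg (fun q : Polynomial ℤ => q.coeff 0) h2
  simp only [Polynomial.coeff_sub, Polynomial.coeff_C_mul, Polynomial.coeff_X_pow, Polynomial.coeff_zero] at h3
  rw [if_neg (by omega), mul_zero, sub_zero] at h3
  exact hp h3

lemma SDc_sub {f g : ℚ⟦X⟧} (h : SDc f) (h' : SDc g) : SDc (f - g) := by
  rw [sub_eq_add_neg]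
  exact h.add (SDc_neg h')

/-- the entries as a family -/
noncomputable def hm (c d : ℕ) (p : Polynomial ℤ) (a : Fin (2 * 2)) : ℚ⟦X⟧ := HM c d p (ix 2 a).1 (ix 2 a).2

lemma hm_0 (c d : ℕ) (p : Polynomial ℤ) : hm c d p 0 = kP c d p 0 := rfl

lemma hm_1 (c d : ℕ) (p : Polynomial ℤ) : hm c d p 1 = - kP c d p 2 := by
  have h1 : kP c d p 2 = -(hR c d p 1 - hR c d p 0 * Lp p) := rfl
  rw [h1, neg_neg]
  rfl

lemma hm_2 (c d : ℕ) (p : Polynomial ℤ) : hm c d p 2 = kP c d p 1 := rfl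

/-- the index set -/
def I0 : Finset (Fin (2 * 2)) := {0, 1, 2}

/-- the order of the indices -/
def e₀ : I0 → Fin 3 := fun i => if (i : Fin (2 * 2)) = 0 then 0 else if (i : Fin (2 * 2)) = 1 then 2 else 1

lemma he₀ : Function.Bijective e₀ := by decide

/-- the signs -/
noncomputable def s₀ : I0 → Polynomial ℚ := fun i => if (i : Fin (2 * 2)) = 1 then -1 else 1

lemma mem_I0 (i : I0) : i = ⟨0, by decide⟩ ∨ i = ⟨1, by decide⟩ ∨ i = ⟨2, by decide⟩ := by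
  revert i
  decide

lemma hm_e₀ (c d : ℕ) (p : Polynomial ℤ) (i : I0) :
    hm c d p i = algebraMap (Polynomial ℚ) ℚ⟦X⟧ (s₀ i) * kP c d p ((Equiv.ofBijective e₀ he₀) i) := by
  rcases mem_I0 i with rfl | rfl | rfl
  · have h1 : s₀ ⟨0, by decide⟩ = 1 := rfl
    have h2 : (Equiv.ofBijective e₀ he₀) ⟨0, by decide⟩ = 0 := rfl
    rw [h1, h2, map_one, one_mul, hm_0]
  · have h1 : s₀ ⟨1, by decide⟩ = -1 := rfl
    have h2 : (Equiv.ofBijective e₀ he₀) ⟨1, by decide⟩ = 2 := rfl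
    rw [h1, h2, map_neg, map_one, hm_1, neg_one_mul]
  · have h1 : s₀ ⟨2, by decide⟩ = 1 := rfl
    have h2 : (Equiv.ofBijective e₀ he₀) ⟨2, by decide⟩ = 1 := rfl
    rw [h1, h2, map_one, one_mul, hm_2]

/-- the order of the values -/
def f₀ : Fin 4 → Option I0 := ![some ⟨0, by decide⟩, some ⟨2, by decide⟩, some ⟨1, by decide⟩, none]

lemma hf₀ : Function.Bijective f₀ := by decide

lemma ev_neg' (y : ℝ) (f : ℚ⟦X⟧) : ev y (-f) = - ev y f := by
  unfold ev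
  simp only [map_neg, Rat.cast_neg, neg_mul, tsum_neg]

lemma vQ_f₀ (c d : ℕ) (p : Polynomial ℤ) (G t g : ℕ) (i : Fin 4) :
    vQ c d p G t g i = (((![1, 1, -1, 1] : Fin 4 → ℚ) i : ℚ) : ℂ) *
      vl G (hm c d p) t g ((Equiv.ofBijective f₀ hf₀ i).map Subtype.val) := by
  revert i
  refine Fin.lastCases ?_ ?_
  · have h1 : (![1, 1, -1, 1] : Fin 4 → ℚ) (Fin.last 3) = 1 := rfl
    have h2 : ((Equiv.ofBijective f₀ hf₀ (Fin.last 3)).map Subtype.val) = none := rfl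
    rw [h1, h2, Rat.cast_one, one_mul]
    unfold vQ
    rw [Fin.snoc_last]
    rfl
  · intro i
    have h3 : vQ c d p G t g i.castSucc = vP c d p ((t - G * g : ℕ) : ℝ) i := by
      unfold vQ
      rw [Fin.snoc_castSucc]
    rw [h3]
    unfold vP
    fin_cases i
    · have h1 : (![1, 1, -1, 1] : Fin 4 → ℚ) (Fin.castSucc 0) = 1 := rfl
      have h2 : ((Equiv.ofBijective f₀ hf₀ (Fin.castSucc 0)).map Subtype.val) = some 0 := rfl
      show ((ev _ (kP c d p 0) : ℝ) : ℂ) = (((![1, 1, -1, 1] : Fin 4 → ℚ) (Fin.castSucc 0) : ℚ) : ℂ) *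
        vl G (hm c d p) t g ((Equiv.ofBijective f₀ hf₀ (Fin.castSucc 0)).map Subtype.val)
      rw [h1, h2, Rat.cast_one, one_mul, ← hm_0]
      rfl
    · have h1 : (![1, 1, -1, 1] : Fin 4 → ℚ) (Fin.castSucc 1) = 1 := rfl
      have h2 : ((Equiv.ofBijective f₀ hf₀ (Fin.castSucc 1)).map Subtype.val) = some 2 := rfl
      show ((ev _ (kP c d p 1) : ℝ) : ℂ) = (((![1, 1, -1, 1] : Fin 4 → ℚ) (Fin.castSucc 1) : ℚ) : ℂ) *
        vl G (hm c d p) t g ((Equiv.ofBijective f₀ hf₀ (Fin.castSucc 1)).map Subtype.val)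
      rw [h1, h2, Rat.cast_one, one_mul, ← hm_2]
      rfl
    · have h1 : (![1, 1, -1, 1] : Fin 4 → ℚ) (Fin.castSucc 2) = -1 := rfl
      have h2 : ((Equiv.ofBijective f₀ hf₀ (Fin.castSucc 2)).map Subtype.val) = some 1 := rfl
      show ((ev _ (kP c d p 2) : ℝ) : ℂ) = (((![1, 1, -1, 1] : Fin 4 → ℚ) (Fin.castSucc 2) : ℚ) : ℂ) *
        vl G (hm c d p) t g ((Equiv.ofBijective f₀ hf₀ (Fin.castSucc 2)).map Subtype.val)
      rw [h1, h2]
      show _ = _ * ((ev _ (hm c d p 1) : ℝ) : ℂ)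
      rw [hm_1, ev_neg']
      push_cast
      ring

theorem t_NQ (hsc : S_SC) (hod : S_OD) (hai : S_AI) : S_NQ := by
  intro c d p hc hd hp
  obtain ⟨hHW, h0, hode⟩ := hod c d p hd hp
  obtain ⟨hsub, hLp⟩ := hsc c d p hd hp
  obtain ⟨hF, hG⟩ := hsd
  have hF1 : SDc F1 := SDc.X.mul hF.deriv
  have hG1 : SDc G1 := (SDc.X.mul hG.deriv).add hF
  have hR0 : ∀ i, SDc (hR c d p i) := by
    intro i
    refine hsub _ ?_
    fin_cases i
    · exact hF
    · exact hG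
    · exact hF1
    · exact hG1
  have hH : ∀ i j, SDc (HM c d p i j) := by
    intro i j
    fin_cases i <;> fin_cases j
    · exact hR0 0
    · exact SDc_sub (hR0 1) ((hR0 0).mul hLp)
    · exact hR0 2
    · exact SDc_sub (hR0 3) ((hR0 2).mul hLp)
  have hW : ∀ i j, SDc (WM c d p i j) := by
    intro i j
    fin_cases i <;> fin_cases j
    · exact SDc_sub (hR0 3) ((hR0 2).mul hLp)
    · exact SDc_neg (SDc_sub (hR0 1) ((hR0 0).mul hLp))
    · exact SDc_neg (hR0 2)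
    · exact hR0 0
  have hI : AlgebraicIndependent (Polynomial ℚ) (fun i : I0 => hm c d p i) := by
    refine ai_equiv (hai c d p hc hd hp) (Equiv.ofBijective e₀ he₀) s₀ (fun i => ?_) (hm_e₀ c d p)
    unfold s₀
    split_ifs <;> ring
  obtain ⟨G, hG1', hNR⟩ := norel_gen (n := 2) (N := !![0, (d : ℚ); 0, 0]) (Nz := ![![0, (d : ℤ)], ![0, 0]])
    (T₁ := TM c d p) (A := AM c d p) (by
      rw [pow_two]
      ext i j
      fin_cases i <;> fin_cases j <;> simp [Matrix.mul_apply, Fin.sum_univ_two]) (by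
      intro i j
      fin_cases i <;> fin_cases j <;> simp) (TM_ne hd hp) hHW h0 hode hH hW hI
  refine ⟨G, hG1', norel_equiv hNR (Equiv.ofBijective f₀ hf₀) ![1, 1, -1, 1] (fun i => ?_) (vQ_f₀ c d p G)⟩
  fin_cases i <;> norm_num

end Pool.Agent.V5helper77.GP
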